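import Pool.Agent.Helper19.PU.Defs

/-!
# PU-5: a uniform bound of the derivative
-/

open MeasureTheory Set Metric Filter Module
open scoped NNReal Topology RealInnerProductSpace ENNReal Real ContDiff Manifold

namespace Pool.Agent.Helper19.PU

variable {E : Type*} [NormedAddCommGroup E] [InnerProductSpace ℝ E]

theorem p5_skew {J : E →L[ℝ] E} (hJ : CS J) (x y : E) : ⟪J x, y⟫ = -⟪x, J y⟫ := by
  have h := hJ.inner (x + y)
  rw [map_add, inner_add_left, inner_add_right, inner_add_right, hJ.inner, hJ.inner,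
    real_inner_comm (J x) y] at h
  linarith

theorem p5_map {J : E →L[ℝ] E} (hJ : CS J) (x y : E) : ⟪J x, J y⟫ = ⟪x, y⟫ := by
  have h := congrArg (fun r : ℝ => r ^ 2) (hJ.norm (x + y))
  simp only [map_add, norm_add_sq_real, hJ.norm] at h
  linarith

theorem p5_norm_N {J : E →L[ℝ] E} (hJ : CS J) {a x : E} {μ : ℝ} (ha : ‖a‖ = 1) (hx : ‖x‖ = 1) :
    ‖Nm J a μ x‖ ^ 2 = Dm a μ x ^ 2 := by
  have h1 : ⟪J a, J a⟫ = 1 := by rw [p5_map hJ, real_inner_self_eq_norm_sq, ha]; norm_num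
  have h2 : ⟪J x, J x⟫ = 1 := by rw [p5_map hJ, real_inner_self_eq_norm_sq, hx]; norm_num
  have h3 : ⟪a, a⟫ = 1 := by rw [real_inner_self_eq_norm_sq, ha]; norm_num
  have h4 : ⟪x, x⟫ = 1 := by rw [real_inner_self_eq_norm_sq, hx]; norm_num
  have h5 : ⟪J a, J x⟫ = ⟪a, x⟫ := p5_map hJ _ _
  have h5' : ⟪J x, J a⟫ = ⟪a, x⟫ := by rw [real_inner_comm, h5]
  have h6 : ⟪a, J a⟫ = 0 := hJ.inner a
  have h6' : ⟪J a, a⟫ = 0 := by rw [real_inner_comm, h6]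
  have h7 : ⟪x, J x⟫ = 0 := hJ.inner x
  have h7' : ⟪J x, x⟫ = 0 := by rw [real_inner_comm, h7]
  have h8 : ⟪x, J a⟫ = ⟪J a, x⟫ := real_inner_comm _ _
  have h9 : ⟪J x, a⟫ = -⟪J a, x⟫ := by rw [p5_skew hJ, h8]
  have h9' : ⟪a, J x⟫ = -⟪J a, x⟫ := by rw [real_inner_comm, h9]
  have h10 : ⟪x, a⟫ = ⟪a, x⟫ := real_inner_comm _ _
  rw [← real_inner_self_eq_norm_sq, Nm, Dm]
  simp only [inner_add_left, inner_add_right, inner_sub_left, inner_sub_right,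
    real_inner_smul_left, real_inner_smul_right, h1, h2, h3, h4, h5, h5', h6, h6', h7, h7', h8,
    h9, h9', h10]
  ring

theorem p5_ineq {p q μ D : ℝ} (hp : 0 ≤ p) (hq : 0 ≤ q) (hpq : p ^ 2 + q ^ 2 = 2) (hμ0 : 0 ≤ μ)
    (hμ1 : μ ≤ 1) (hD : D = p ^ 2 + μ ^ 2 * q ^ 2) (hD0 : 0 < D) :
    (((1 - μ) ^ 2 * (p * q) + 2 * μ + (1 - μ) * (√2 * p + μ * (√2 * q)) +
      (1 - μ ^ 2) * (p * q)) / D + (1 - μ ^ 2) * (p * q) / D) * p ≤ 14 := by
  have h2 : √2 ≤ 3 / 2 := by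
    rw [Real.sqrt_le_left (by norm_num)]
    norm_num
  have h20 : 0 ≤ √2 := Real.sqrt_nonneg 2
  have hq2 : q ≤ 3 / 2 := by nlinarith
  have hDp : p ^ 2 ≤ D := by rw [hD]; nlinarith [mul_nonneg (sq_nonneg μ) (sq_nonneg q)]
  have hDpq : 2 * μ * (p * q) ≤ D := by rw [hD]; nlinarith [sq_nonneg (p - μ * q)]
  have hpq0 : 0 ≤ p * q := mul_nonneg hp hq
  have hppq : p * q * p ≤ 3 / 2 * D := by nlinarith
  have hμ2 : 0 ≤ 1 - μ ^ 2 := by nlinarith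
  have hμ2' : 1 - μ ^ 2 ≤ 1 := by nlinarith
  have hm1 : 0 ≤ 1 - μ := by linarith
  have hm1' : (1 - μ) ^ 2 ≤ 1 := by nlinarith
  have hppq0 : 0 ≤ p * q * p := mul_nonneg hpq0 hp
  -- the five terms
  have t1 : (1 - μ) ^ 2 * (p * q) * p ≤ 3 / 2 * D := by nlinarith
  have t2 : 2 * μ * p ≤ 2 * D := by
    rcases le_total 1 q with h | h
    · nlinarith [mul_nonneg hμ0 hp]
    · have hp1 : 1 ≤ p := by nlinarith
      nlinarith [mul_nonneg hμ0 hp]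
  have t3 : (1 - μ) * (√2 * p + μ * (√2 * q)) * p ≤ 9 / 4 * D := by
    have e1 : (√2 * p + μ * (√2 * q)) * p ≤ 9 / 4 * D := by
      have e2 : (√2 * p + μ * (√2 * q)) * p = √2 * (p ^ 2 + μ * (p * q)) := by ring
      rw [e2]
      have e3 : p ^ 2 + μ * (p * q) ≤ 3 / 2 * D := by nlinarith
      have e4 : 0 ≤ p ^ 2 + μ * (p * q) := by positivity
      nlinarith
    have e5 : 0 ≤ (√2 * p + μ * (√2 * q)) * p := by positivity
    nlinarith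
  have t4 : (1 - μ ^ 2) * (p * q) * p ≤ 3 / 2 * D := by nlinarith
  have e : (((1 - μ) ^ 2 * (p * q) + 2 * μ + (1 - μ) * (√2 * p + μ * (√2 * q)) +
      (1 - μ ^ 2) * (p * q)) / D + (1 - μ ^ 2) * (p * q) / D) * p =
      ((1 - μ) ^ 2 * (p * q) * p + 2 * μ * p + (1 - μ) * (√2 * p + μ * (√2 * q)) * p +
      2 * ((1 - μ ^ 2) * (p * q) * p)) / D := by
    field_simp
    ring
  rw [e, div_le_iff₀ hD0]
  linarith

theorem p5_pr_norm {x : E} (hx : ‖x‖ = 1) (δ : E) : ‖pr x δ‖ ≤ ‖δ‖ := by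
  have h : ‖pr x δ‖ ^ 2 = ‖δ‖ ^ 2 - ⟪x, δ⟫ ^ 2 := by
    have e : pr x δ = δ - ⟪x, δ⟫ • x := by simp [pr]
    rw [e, norm_sub_sq_real, real_inner_smul_right, norm_smul, hx, real_inner_comm δ x,
      Real.norm_eq_abs, mul_one, sq_abs]
    ring
  have h2 : ‖pr x δ‖ ^ 2 ≤ ‖δ‖ ^ 2 := by rw [h]; nlinarith [sq_nonneg ⟪x, δ⟫]
  exact le_of_sq_le_sq h2 (norm_nonneg _)

theorem p5_pr_inner {x : E} (hx : ‖x‖ = 1) (δ : E) : ⟪x, pr x δ⟫ = 0 := by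
  have e : pr x δ = δ - ⟪x, δ⟫ • x := by simp [pr]
  rw [e, inner_sub_right, real_inner_smul_right, real_inner_self_eq_norm_sq, hx]
  ring

theorem norm_Tm_sq {J : E →L[ℝ] E} (hJ : CS J) {a x : E} {μ : ℝ} (ha : ‖a‖ = 1) (hx : ‖x‖ = 1)
    (hμ0 : 0 ≤ μ) (hμ1 : μ ≤ 1) (hμ : μ ≠ 0 ∨ x ≠ -a) :
    ‖Tm J a μ x‖ ^ 2 * (1 + ⟪a, x⟫) ≤ 200 := by
  obtain ⟨t, ht⟩ : ∃ t : ℝ, t = ⟪a, x⟫ := ⟨_, rfl⟩
  have hxa : ⟪x, a⟫ = t := by rw [real_inner_comm, ht]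
  have habs : |t| ≤ 1 := by
    rw [ht]
    have := abs_real_inner_le_norm a x
    rwa [ha, hx, one_mul] at this
  obtain ⟨ht1, ht2⟩ := abs_le.1 habs
  obtain ⟨p, hp⟩ : ∃ p : ℝ, p = √(1 + t) := ⟨_, rfl⟩
  obtain ⟨q, hq⟩ : ∃ q : ℝ, q = √(1 - t) := ⟨_, rfl⟩
  have hp0 : 0 ≤ p := hp ▸ Real.sqrt_nonneg _
  have hq0 : 0 ≤ q := hq ▸ Real.sqrt_nonneg _
  have hp2 : p ^ 2 = 1 + t := by rw [hp, Real.sq_sqrt (by linarith)]
  have hq2 : q ^ 2 = 1 - t := by rw [hq, Real.sq_sqrt (by linarith)]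
  have hDm : Dm a μ x = p ^ 2 + μ ^ 2 * q ^ 2 := by rw [Dm, ← ht, hp2, hq2]
  have hD0 : 0 < Dm a μ x := by
    rw [hDm]
    rcases hμ with h | h
    · rcases eq_or_ne p 0 with h0 | h0
      · have hq' : q ^ 2 = 2 := by
          rw [h0] at hp2
          linarith
        rw [h0, hq']
        have : 0 < μ ^ 2 := by positivity
        nlinarith
      · have : 0 < p ^ 2 := by positivity
        have : 0 ≤ μ ^ 2 * q ^ 2 := by positivity
        linarith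
    · have hp' : 0 < p ^ 2 := by
        have h5 : ‖a + x‖ ^ 2 = 2 * p ^ 2 := by
          rw [norm_add_sq_real, ha, hx, ← ht, hp2]
          ring
        have h6 : a + x ≠ 0 := by
          intro h7
          exact h (eq_neg_of_add_eq_zero_right h7)
        have h8 : 0 < ‖a + x‖ ^ 2 := by positivity
        linarith
      have : 0 ≤ μ ^ 2 * q ^ 2 := by positivity
      linarith
  obtain ⟨D, hDD⟩ : ∃ D : ℝ, D = Dm a μ x := ⟨_, rfl⟩
  rw [← hDD] at hDm hD0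
  have hN : ‖Nm J a μ x‖ = D := by
    have h := p5_norm_N hJ (μ := μ) ha hx
    rw [← hDD] at h
    exact (pow_left_inj₀ (norm_nonneg _) hD0.le two_ne_zero).1 h
  -- the norm bounds of the vectors
  have hpq : p ^ 2 * q ^ 2 = 1 - t ^ 2 := by rw [hp2, hq2]; ring
  have n1 : ‖a - t • x‖ = p * q := by
    have : ‖a - t • x‖ ^ 2 = (p * q) ^ 2 := by
      rw [norm_sub_sq_real, real_inner_smul_right, norm_smul, ha, hx, ← ht, mul_one,
        Real.norm_eq_abs, sq_abs, mul_pow, hpq]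
      ring
    exact (pow_left_inj₀ (norm_nonneg _) (by positivity) two_ne_zero).1 this
  have n2 : ‖x - t • a‖ = p * q := by
    have : ‖x - t • a‖ ^ 2 = (p * q) ^ 2 := by
      rw [norm_sub_sq_real, real_inner_smul_right, norm_smul, ha, hx, hxa, mul_one,
        Real.norm_eq_abs, sq_abs, mul_pow, hpq]
      ring
    exact (pow_left_inj₀ (norm_nonneg _) (by positivity) two_ne_zero).1 this
  have n3 : ‖a + x‖ = √2 * p := by
    have : ‖a + x‖ ^ 2 = (√2 * p) ^ 2 := by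
      rw [norm_add_sq_real, ha, hx, ← ht, mul_pow, Real.sq_sqrt (by norm_num), hp2]
      ring
    exact (pow_left_inj₀ (norm_nonneg _) (by positivity) two_ne_zero).1 this
  have n4 : ‖x - a‖ = √2 * q := by
    have : ‖x - a‖ ^ 2 = (√2 * q) ^ 2 := by
      rw [norm_sub_sq_real, ha, hx, hxa, mul_pow, Real.sq_sqrt (by norm_num), hq2]
      ring
    exact (pow_left_inj₀ (norm_nonneg _) (by positivity) two_ne_zero).1 this
  have nJa : ‖J a‖ = 1 := by rw [hJ.norm, ha]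
  have n5 : ‖(1 - μ) • a + (1 + μ) • x‖ ≤ √2 * p + μ * (√2 * q) := by
    have e : (1 - μ) • a + (1 + μ) • x = (a + x) + μ • (x - a) := by module
    rw [e, ← n3, ← n4]
    refine (norm_add_le _ _).trans ?_
    rw [norm_smul, Real.norm_of_nonneg hμ0]
  have n6 : |⟪J a, x⟫| ≤ p * q := by
    have e : ⟪J a, x⟫ = ⟪J a, x - t • a⟫ := by
      rw [inner_sub_right, real_inner_smul_right, real_inner_comm a (J a), hJ.inner a]
      ring
    rw [e]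
    refine (abs_real_inner_le_norm _ _).trans ?_
    rw [nJa, n2, one_mul]
  -- the derivative on a vector orthogonal to `x`
  have key : ∀ δ : E, ⟪x, δ⟫ = 0 → ‖dW J a μ x δ‖ ≤
      (((1 - μ) ^ 2 * (p * q) + 2 * μ + (1 - μ) * (√2 * p + μ * (√2 * q)) +
      (1 - μ ^ 2) * (p * q)) / D + (1 - μ ^ 2) * (p * q) / D) * ‖δ‖ := by
    intro δ hδ
    have m1 : |⟪a, δ⟫| ≤ p * q * ‖δ‖ := by
      have e : ⟪a, δ⟫ = ⟪a - t • x, δ⟫ := by
        rw [inner_sub_left, real_inner_smul_left, hδ]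
        ring
      rw [e, ← n1]
      exact abs_real_inner_le_norm _ _
    have m2 : |⟪J a, δ⟫| ≤ ‖δ‖ := by
      refine (abs_real_inner_le_norm _ _).trans ?_
      rw [nJa, one_mul]
    have m3 : ‖J δ‖ = ‖δ‖ := hJ.norm δ
    have hdN : ‖dN J a μ x δ‖ ≤ ((1 - μ) ^ 2 * (p * q) + 2 * μ +
        (1 - μ) * (√2 * p + μ * (√2 * q)) + (1 - μ ^ 2) * (p * q)) * ‖δ‖ := by
      have e : dN J a μ x δ = ((1 - μ) ^ 2 * ⟪a, δ⟫) • J a + (2 * μ) • J δ -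
          ((1 - μ) * ⟪J a, δ⟫) • ((1 - μ) • a + (1 + μ) • x) -
          ((1 - μ) * ⟪J a, x⟫ * (1 + μ)) • δ := by
        simp [dN]
      have hm : 0 ≤ 1 - μ := by linarith
      have hmp : 0 ≤ 1 + μ := by linarith
      have k1 : ‖((1 - μ) ^ 2 * ⟪a, δ⟫) • J a‖ ≤ (1 - μ) ^ 2 * (p * q) * ‖δ‖ := by
        rw [norm_smul, nJa, mul_one, Real.norm_eq_abs, abs_mul, abs_of_nonneg (sq_nonneg (1 - μ)),
          mul_assoc]
        exact mul_le_mul_of_nonneg_left m1 (sq_nonneg _)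
      have k2 : ‖(2 * μ) • J δ‖ = 2 * μ * ‖δ‖ := by
        rw [norm_smul, m3, Real.norm_of_nonneg (by linarith)]
      have k3 : ‖((1 - μ) * ⟪J a, δ⟫) • ((1 - μ) • a + (1 + μ) • x)‖ ≤
          (1 - μ) * (√2 * p + μ * (√2 * q)) * ‖δ‖ := by
        rw [norm_smul, Real.norm_eq_abs, abs_mul, abs_of_nonneg hm]
        have := mul_le_mul m2 n5 (norm_nonneg _) (norm_nonneg _)
        have := mul_le_mul_of_nonneg_left this hm
        calc (1 - μ) * |⟪J a, δ⟫| * ‖(1 - μ) • a + (1 + μ) • x‖ =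
            (1 - μ) * (|⟪J a, δ⟫| * ‖(1 - μ) • a + (1 + μ) • x‖) := by ring
          _ ≤ (1 - μ) * (‖δ‖ * (√2 * p + μ * (√2 * q))) := this
          _ = _ := by ring
      have k4 : ‖((1 - μ) * ⟪J a, x⟫ * (1 + μ)) • δ‖ ≤ (1 - μ ^ 2) * (p * q) * ‖δ‖ := by
        rw [norm_smul, Real.norm_eq_abs, abs_mul, abs_mul, abs_of_nonneg hm, abs_of_nonneg hmp]
        refine mul_le_mul_of_nonneg_right ?_ (norm_nonneg _)
        have := mul_le_mul_of_nonneg_left n6 (mul_nonneg hm hmp)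
        calc (1 - μ) * |⟪J a, x⟫| * (1 + μ) = (1 - μ) * (1 + μ) * |⟪J a, x⟫| := by ring
          _ ≤ (1 - μ) * (1 + μ) * (p * q) := this
          _ = _ := by ring
      rw [e]
      have s1 := norm_sub_le (((1 - μ) ^ 2 * ⟪a, δ⟫) • J a + (2 * μ) • J δ -
          ((1 - μ) * ⟪J a, δ⟫) • ((1 - μ) • a + (1 + μ) • x))
          (((1 - μ) * ⟪J a, x⟫ * (1 + μ)) • δ)
      have s2 := norm_sub_le (((1 - μ) ^ 2 * ⟪a, δ⟫) • J a + (2 * μ) • J δ)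
          (((1 - μ) * ⟪J a, δ⟫) • ((1 - μ) • a + (1 + μ) • x))
      have s3 := norm_add_le (((1 - μ) ^ 2 * ⟪a, δ⟫) • J a) ((2 * μ) • J δ)
      linarith
    have eW : dW J a μ x δ = D⁻¹ • dN J a μ x δ -
        ((D ^ 2)⁻¹ * (1 - μ ^ 2) * ⟪a, δ⟫) • Nm J a μ x := by
      simp [dW, ← hDD, smul_smul]
    rw [eW]
    refine (norm_sub_le _ _).trans ?_
    have hm2 : 0 ≤ 1 - μ ^ 2 := by nlinarith
    have w1 : ‖D⁻¹ • dN J a μ x δ‖ ≤ ((1 - μ) ^ 2 * (p * q) + 2 * μ +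
        (1 - μ) * (√2 * p + μ * (√2 * q)) + (1 - μ ^ 2) * (p * q)) / D * ‖δ‖ := by
      rw [norm_smul, Real.norm_of_nonneg (inv_nonneg.2 hD0.le), div_eq_inv_mul, mul_assoc]
      exact mul_le_mul_of_nonneg_left hdN (inv_nonneg.2 hD0.le)
    have w2 : ‖((D ^ 2)⁻¹ * (1 - μ ^ 2) * ⟪a, δ⟫) • Nm J a μ x‖ ≤
        (1 - μ ^ 2) * (p * q) / D * ‖δ‖ := by
      rw [norm_smul, hN, Real.norm_eq_abs, abs_mul, abs_of_nonneg (by positivity)]
      have := mul_le_mul_of_nonneg_left m1 (mul_nonneg (inv_nonneg.2 hD0.le) hm2)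
      calc (D ^ 2)⁻¹ * (1 - μ ^ 2) * |⟪a, δ⟫| * D = D⁻¹ * (1 - μ ^ 2) * |⟪a, δ⟫| := by
            field_simp
        _ ≤ D⁻¹ * (1 - μ ^ 2) * (p * q * ‖δ‖) := this
        _ = _ := by ring
    calc _ ≤ _ := add_le_add w1 w2
      _ = _ := by ring
  obtain ⟨C, hC⟩ : ∃ C : ℝ, C = ((1 - μ) ^ 2 * (p * q) + 2 * μ +
      (1 - μ) * (√2 * p + μ * (√2 * q)) + (1 - μ ^ 2) * (p * q)) / D +
      (1 - μ ^ 2) * (p * q) / D := ⟨_, rfl⟩
  rw [← hC] at key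
  have hC0 : 0 ≤ C := by
    have hm : 0 ≤ 1 - μ := by linarith
    have hm2 : 0 ≤ 1 - μ ^ 2 := by nlinarith
    rw [hC]
    positivity
  have hCp : C * p ≤ 14 := by
    rw [hC]
    exact p5_ineq hp0 hq0 (by rw [hp2, hq2]; ring) hμ0 hμ1 hDm hD0
  have hT : ‖Tm J a μ x‖ ≤ C := by
    refine ContinuousLinearMap.opNorm_le_bound _ hC0 fun δ => ?_
    have e : Tm J a μ x δ = pr x (dW J a μ x (pr x δ)) := rfl
    rw [e]
    refine (p5_pr_norm hx _).trans ((key _ (p5_pr_inner hx δ)).trans ?_)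
    exact mul_le_mul_of_nonneg_left (p5_pr_norm hx δ) hC0
  rw [← ht, ← hp2, ← mul_pow]
  have h1 : ‖Tm J a μ x‖ * p ≤ 14 := (mul_le_mul_of_nonneg_right hT hp0).trans hCp
  have h0 : 0 ≤ ‖Tm J a μ x‖ * p := mul_nonneg (norm_nonneg _) hp0
  nlinarith

end Pool.Agent.Helper19.PU
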